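import Pool.Agent.H51R3.PS.Common
import Pool.Agent.H607R3.PS.Grade
import Pool.Agent.H607R3.PS.Len
import Pool.Agent.H633R3.PS.Loc
import Pool.Agent.H291R3.PSB.Base
import Pool.Agent.H841.PSRes
import Pool.Agent.H594.PSRegP

set_option autoImplicit false

/-!
The grade conjecture fails for the ring `RR⟦t⟧/(s t)` and the cyclic module of the ideal `cI`.
-/

namespace Q37.Grade

open Pool.Agent.H607R3.PS H51R3.PS IsLocalRing

section A

variable {T : Type} [CommRing T] {α β γ : T}

theorem qm_surj (f : RP T α β γ) : ∃ F : PowerSeries (RR T α β γ), RegP.qm F = f :=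
  Ideal.Quotient.mk_surjective f

/-- the map `RP → T`: constant coefficient, then first coordinate -/
noncomputable def psi : RP T α β γ →+* T :=
  Ideal.Quotient.lift _ ((rho (T := T) (α := α) (β := β) (γ := γ)).comp
    (PowerSeries.constantCoeff (R := RR T α β γ))) (by
      intro f hf
      rw [Ideal.mem_span_singleton] at hf
      obtain ⟨c, rfl⟩ := hf
      simp)

theorem psi_qm (F : PowerSeries (RR T α β γ)) :
    psi (RegP.qm F) = (PowerSeries.constantCoeff (R := RR T α β γ) F).a := rfl

theorem psi_toRP (u : RR T α β γ) : psi (toRP u) = u.a := by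
  change psi (RegP.qm (PowerSeries.C u)) = _
  rw [psi_qm, PowerSeries.constantCoeff_C]

/-- the prime of the second component -/
noncomputable def PP (T : Type) [CommRing T] (α β γ : T) : Ideal (RP T α β γ) :=
  (Ideal.span {α, β} : Ideal T).comap psi

theorem mem_PP (f : RP T α β γ) : f ∈ PP T α β γ ↔ psi f ∈ (Ideal.span {α, β} : Ideal T) :=
  Iff.rfl

theorem s_notMem (h : γ ∉ (Ideal.span {α, β} : Ideal T)) : toRP (RR.s : RR T α β γ) ∉ PP T α β γ := by
  intro h1
  rw [mem_PP, psi_toRP] at h1
  exact h h1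

theorem cP_le : cP T α β γ ≤ PP T α β γ := by
  unfold cP cI
  rw [Ideal.span_le]
  rintro _ ⟨i, rfl⟩
  rw [SetLike.mem_coe, mem_PP]
  have h : gens (toRP (RR.x : RR T α β γ)) (toRP RR.y) (toRP RR.z) (toRP RR.w) (toRP RR.s) i =
      toRP (gens (RR.x : RR T α β γ) RR.y RR.z RR.w RR.s i) := by
    fin_cases i <;> simp [gens]
  rw [h, psi_toRP]
  exact rho_gens i

theorem s_mul_X : toRP (RR.s : RR T α β γ) * RegP.qm PowerSeries.X = 0 := by
  change RegP.qm (PowerSeries.C RR.s) * RegP.qm PowerSeries.X = 0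
  rw [← map_mul, RegP.qm_zero_iff]
  exact ⟨1, (mul_one _).symm⟩

theorem PP_minimal (hp : (Ideal.span {α, β} : Ideal T).IsPrime)
    (h : γ ∉ (Ideal.span {α, β} : Ideal T)) :
    PP T α β γ ∈ (Ideal.span {toRP (RR.emb α : RR T α β γ), toRP (RR.emb β : RR T α β γ)} :
      Ideal (RP T α β γ)).minimalPrimes := by
  have hPP : (PP T α β γ).IsPrime := Ideal.comap_isPrime _ _
  refine ⟨⟨hPP, ?_⟩, ?_⟩
  · rw [Ideal.span_le]
    intro f hf
    simp only [Set.mem_insert_iff, Set.mem_singleton_iff] at hf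
    rw [SetLike.mem_coe, mem_PP]
    rcases hf with rfl | rfl
    · rw [psi_toRP]
      exact Ideal.subset_span (by simp)
    · rw [psi_toRP]
      exact Ideal.subset_span (by simp)
  · rintro Q ⟨hQ, hJ⟩ hle
    have hs : toRP (RR.s : RR T α β γ) ∉ Q := fun h1 => s_notMem h (hle h1)
    have hx : toRP (RR.x : RR T α β γ) ∈ Q := by
      refine (hQ.mem_or_mem (x := toRP (RR.x : RR T α β γ)) (y := toRP RR.s) ?_).resolve_right hs
      rw [← map_mul, RR.xs, map_zero]
      exact Ideal.zero_mem _
    have hw : toRP (RR.w : RR T α β γ) ∈ Q := by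
      refine (hQ.mem_or_mem (x := toRP (RR.w : RR T α β γ)) (y := toRP RR.s) ?_).resolve_right hs
      rw [← map_mul, RR.ws, map_zero]
      exact Ideal.zero_mem _
    have hX : RegP.qm (PowerSeries.X : PowerSeries (RR T α β γ)) ∈ Q := by
      refine (hQ.mem_or_mem (x := toRP (RR.s : RR T α β γ)) (y := RegP.qm PowerSeries.X)
        ?_).resolve_left hs
      rw [s_mul_X]
      exact Ideal.zero_mem _
    intro f hf
    obtain ⟨F, rfl⟩ := qm_surj f
    rw [mem_PP, psi_qm] at hf
    obtain ⟨G, hG⟩ := Pool.Agent.H291R3.PSB.decomp1 F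
    have h1 : RegP.qm F = toRP (PowerSeries.constantCoeff F) + RegP.qm PowerSeries.X * RegP.qm G := by
      conv_lhs => rw [hG]
      rw [map_add, map_mul]
      rfl
    rw [h1]
    refine Ideal.add_mem _ ?_ (Ideal.mul_mem_right _ _ hX)
    rw [RR.decomp (PowerSeries.constantCoeff F)]
    simp only [map_add, map_mul]
    refine Ideal.add_mem _ (Ideal.add_mem _ ?_ (Ideal.mul_mem_left _ _ hx))
      (Ideal.mul_mem_left _ _ hw)
    have h2 : (Ideal.span {α, β} : Ideal T) ≤ Q.comap ((toRP (T := T) (α := α) (β := β)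
        (γ := γ)).comp RR.emb) := by
      rw [Ideal.span_le]
      intro t ht
      simp only [Set.mem_insert_iff, Set.mem_singleton_iff] at ht
      rcases ht with rfl | rfl
      · exact hJ (Ideal.subset_span (by simp))
      · exact hJ (Ideal.subset_span (by simp))
    exact h2 hf

/-- a weakly regular sequence in a prime ideal is at most as long as the height of the prime -/
theorem length_le_height {R : Type} [CommRing R] [IsNoetherianRing R] (p : Ideal R) [p.IsPrime]
    (rs : List R) (hmem : ∀ r ∈ rs, r ∈ p) (hreg : RingTheory.Sequence.IsWeaklyRegular R rs) :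
    (rs.length : WithBot ℕ∞) ≤ p.height := by
  have h1 := hreg.isRegular_of_isLocalization_of_mem (Localization.AtPrime p) p hmem
  have h2 := ringKrullDim_add_length_eq_ringKrullDim_of_isRegular _ h1
  rw [IsLocalization.AtPrime.ringKrullDim_eq_height p (Localization.AtPrime p)] at h2
  rw [← h2, List.length_map]
  have h3 : Nontrivial (Localization.AtPrime p ⧸ Ideal.ofList
      (List.map (algebraMap R (Localization.AtPrime p)) rs)) := by
    rw [Ideal.Quotient.nontrivial_iff]
    intro hcon
    apply h1.2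
    rw [hcon]
    simp
  exact le_add_of_nonneg_left ringKrullDim_nonneg_of_nontrivial

/-- no weakly regular sequence of length three in the ideal -/
theorem grade_le [IsNoetherianRing T] (hp : (Ideal.span {α, β} : Ideal T).IsPrime)
    (h : γ ∉ (Ideal.span {α, β} : Ideal T)) :
    ¬ ∃ rs : List (RP T α β γ), rs.length = 3 ∧ (∀ r ∈ rs, r ∈ cP T α β γ) ∧
      RingTheory.Sequence.IsWeaklyRegular (RP T α β γ) rs := by
  rintro ⟨rs, hlen, hmem, hreg⟩
  have hPP : (PP T α β γ).IsPrime := Ideal.comap_isPrime _ _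
  have h1 := length_le_height (PP T α β γ) rs (fun r hr => cP_le (hmem r hr)) hreg
  have h3 : (PP T α β γ).height ≤ 2 := by
    refine (Ideal.height_le_card_of_mem_minimalPrimes_span (Set.toFinite _)
      (PP_minimal hp h)).trans ?_
    have h4 : Set.ncard {toRP (RR.emb α : RR T α β γ), toRP (RR.emb β : RR T α β γ)} ≤ 2 := by
      refine (Set.ncard_insert_le _ _).trans ?_
      rw [Set.ncard_singleton]
    exact_mod_cast h4
  rw [hlen] at h1
  have h5 : ((3 : ℕ) : ℕ∞) ≤ ((2 : ℕ) : ℕ∞) := le_trans (WithBot.coe_le_coe.1 h1) h3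
  exact absurd (Nat.cast_le.1 h5) (by decide)

/-- power series rings over local Noetherian rings: the dimension grows by one -/
theorem dim_succ' {S : Type} [CommRing S] [IsLocalRing S] [IsNoetherianRing S] :
    ringKrullDim (PowerSeries S) = ringKrullDim S + 1 := by
  have hX : (PowerSeries.X : PowerSeries S) ∈ nonZeroDivisors (PowerSeries S) := by
    rw [mem_nonZeroDivisors_iff_right]
    intro f hf
    ext n
    have h1 := congrArg (PowerSeries.coeff (n + 1)) hf
    rwa [PowerSeries.coeff_succ_mul_X] at h1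
  have hm : (PowerSeries.X : PowerSeries S) ∈ maximalIdeal (PowerSeries S) := by
    rw [Pool.Agent.H291R3.PSB.mem_max_iff, PowerSeries.constantCoeff_X]
    exact Ideal.zero_mem _
  have h1 := ringKrullDim_quotient_span_singleton_succ_eq_ringKrullDim_of_mem_nonZeroDivisors hX hm
  have hker : Ideal.span {(PowerSeries.X : PowerSeries S)} =
      RingHom.ker (PowerSeries.constantCoeff : PowerSeries S →+* S) := by
    ext f
    rw [Ideal.mem_span_singleton, PowerSeries.X_dvd_iff, RingHom.mem_ker]
  have e : (PowerSeries S ⧸ Ideal.span {(PowerSeries.X : PowerSeries S)}) ≃+* S :=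
    (Ideal.quotEquivOfEq hker).trans
      (RingHom.quotientKerEquivOfSurjective (f := (PowerSeries.constantCoeff : PowerSeries S →+* S))
        PowerSeries.constantCoeff_surj)
  rw [← h1, ringKrullDim_eq_of_ringEquiv e]

theorem dim_ge [IsLocalRing T] [IsNoetherianRing T] [IsDomain T] (hB : Base T α β γ) :
    (4 : WithBot ℕ∞) ≤ ringKrullDim (RP T α β γ) := by
  obtain ⟨hα, hβ, hγ⟩ := mem_max hB
  have hloc : IsLocalRing (RR T α β γ) := taskLoc T α β γ hα hβ hγ
  have hnt : Nontrivial (RR T α β γ ⧸ (Ideal.span {RR.s} : Ideal (RR T α β γ))) :=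
    (injA T α β γ).nontrivial
  have hloc2 : IsLocalRing (RR T α β γ ⧸ (Ideal.span {RR.s} : Ideal (RR T α β γ))) :=
    IsLocalRing.of_surjective' _ Ideal.Quotient.mk_surjective
  have h1 := dim_succ' (S := RR T α β γ ⧸ (Ideal.span {RR.s} : Ideal (RR T α β γ)))
  have h2 := dimA hB
  have h3 : (4 : WithBot ℕ∞) ≤ ringKrullDim (PowerSeries (RR T α β γ ⧸
      (Ideal.span {RR.s} : Ideal (RR T α β γ)))) := by
    rw [h1]
    calc (4 : WithBot ℕ∞) = 3 + 1 := by norm_num
      _ ≤ _ := add_le_add h2 le_rfl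
  refine h3.trans ?_
  refine ringKrullDim_le_of_surjective (Ideal.Quotient.lift _
    (PowerSeries.map (Ideal.Quotient.mk (Ideal.span {RR.s} : Ideal (RR T α β γ)))) ?_) ?_
  · intro f hf
    rw [Ideal.mem_span_singleton] at hf
    obtain ⟨c, rfl⟩ := hf
    rw [map_mul, map_mul, PowerSeries.map_C, Ideal.Quotient.eq_zero_iff_mem.2
      (Ideal.mem_span_singleton_self _), map_zero, zero_mul, zero_mul]
  · apply Ideal.Quotient.lift_surjective_of_surjective
    exact PowerSeries.map_surjective _ Ideal.Quotient.mk_surjective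

/-- a criterion for dimension at most one -/
theorem dim_le_one {R : Type} [CommRing R] [IsLocalRing R] [IsNoetherianRing R] (I : Ideal R)
    (hI : I ≠ ⊤) (u : R)
    (h : ∀ P : Ideal R, P.IsPrime → I ≤ P → u ∈ P → maximalIdeal R ≤ P) (hu : u ∈ maximalIdeal R) :
    ringKrullDim (R ⧸ I) ≤ 1 := by
  have hnt : Nontrivial (R ⧸ I) := Ideal.Quotient.nontrivial_iff.mpr hI
  have hloc : IsLocalRing (R ⧸ I) :=
    IsLocalRing.of_surjective' (Ideal.Quotient.mk I) Ideal.Quotient.mk_surjective
  have hmap : ∀ r ∈ maximalIdeal R, Ideal.Quotient.mk I r ∈ maximalIdeal (R ⧸ I) := by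
    intro r hr
    rw [mem_maximalIdeal, mem_nonunits_iff]
    intro hcon
    obtain ⟨v, hv⟩ := hcon.exists_right_inv
    obtain ⟨v, rfl⟩ := Ideal.Quotient.mk_surjective v
    rw [← map_mul, ← map_one (Ideal.Quotient.mk I), Ideal.Quotient.eq] at hv
    have h1 : r * v - 1 ∈ maximalIdeal R := le_maximalIdeal hI hv
    have h2 : (1 : R) ∈ maximalIdeal R := by
      have h3 := Ideal.sub_mem _ (Ideal.mul_mem_right v _ hr) h1
      rwa [sub_sub_cancel] at h3
    exact (Ideal.ne_top_iff_one _).1 (maximalIdeal.isMaximal R).ne_top h2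
  have hmin : maximalIdeal (R ⧸ I) ∈ (Ideal.span {Ideal.Quotient.mk I u}).minimalPrimes := by
    refine ⟨⟨(maximalIdeal.isMaximal _).isPrime, ?_⟩, ?_⟩
    · rw [Ideal.span_le]
      rintro _ rfl
      exact hmap u hu
    · rintro Q ⟨hQ, hQu⟩ -
      have h1 := h (Q.comap (Ideal.Quotient.mk I)) (Ideal.comap_isPrime _ _) (by
        intro r hr
        rw [Ideal.mem_comap, Ideal.Quotient.eq_zero_iff_mem.2 hr]
        exact Ideal.zero_mem _) (hQu (Ideal.mem_span_singleton_self _))
      intro q hq
      obtain ⟨q, rfl⟩ := Ideal.Quotient.mk_surjective q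
      refine h1 ?_
      rw [mem_maximalIdeal, mem_nonunits_iff]
      intro hcon
      exact (mem_nonunits_iff.1 ((mem_maximalIdeal _).1 hq)) (hcon.map (Ideal.Quotient.mk I))
  rw [← maximalIdeal_height_eq_ringKrullDim]
  have h1 := Ideal.height_le_one_of_isPrincipal_of_mem_minimalPrimes _ _ hmin
  exact_mod_cast h1

theorem dim_quot_le [IsLocalRing T] [IsNoetherianRing T] [IsDomain T] (hB : Base T α β γ) :
    ringKrullDim (RP T α β γ ⧸ cP T α β γ) ≤ 1 := by
  obtain ⟨hα, hβ, hγ⟩ := mem_max hB
  have hloc : IsLocalRing (RR T α β γ) := taskLoc T α β γ hα hβ hγ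
  have hloc2 : IsLocalRing (RP T α β γ) := local_RP
  have key : ∀ P : Ideal (RP T α β γ), P.IsPrime → cP T α β γ ≤ P →
      RegP.qm PowerSeries.X + toRP (RR.emb γ) ∈ P → maximalIdeal (RP T α β γ) ≤ P := by
    intro P hP hle hu
    have hg : ∀ i : Fin 7, gens (toRP (RR.x : RR T α β γ)) (toRP RR.y) (toRP RR.z) (toRP RR.w)
        (toRP RR.s) i ∈ P := fun i => hle (Ideal.subset_span ⟨i, rfl⟩)
    have hxs : toRP (RR.s : RR T α β γ) * toRP RR.w = 0 := by
      rw [mul_comm (toRP (RR.s : RR T α β γ)), ← map_mul, RR.ws, map_zero]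
    have hγ2 : toRP (RR.emb γ : RR T α β γ) = toRP RR.s + toRP RR.w := by
      rw [← map_add, RR.s_add_w]
    have hsw : toRP (RR.s : RR T α β γ) ∈ P ∧ toRP (RR.w : RR T α β γ) ∈ P ∧
        RegP.qm (PowerSeries.X : PowerSeries (RR T α β γ)) ∈ P := by
      have h0 : toRP (RR.s : RR T α β γ) * RegP.qm PowerSeries.X ∈ P := by
        rw [s_mul_X]
        exact Ideal.zero_mem _
      rcases hP.mem_or_mem h0 with hs | hX
      · have hw : toRP (RR.w : RR T α β γ) ∈ P := by
          have h4 : toRP (RR.w : RR T α β γ) ^ 4 + toRP RR.s * toRP RR.y * toRP RR.z ∈ P := hg 4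
          have h5 : toRP (RR.w : RR T α β γ) ^ 4 ∈ P := by
            have h6 : toRP (RR.w : RR T α β γ) ^ 4 =
              (toRP (RR.w : RR T α β γ) ^ 4 + toRP RR.s * toRP RR.y * toRP RR.z) -
                (toRP RR.y * toRP RR.z) * toRP RR.s := by ring
            rw [h6]
            exact Ideal.sub_mem _ h4 (Ideal.mul_mem_left _ _ hs)
          exact hP.mem_of_pow_mem 4 h5
        refine ⟨hs, hw, ?_⟩
        have h7 := Ideal.sub_mem _ hu (Ideal.add_mem _ hs hw)
        rwa [hγ2, add_sub_cancel_right] at h7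
      · have hγP : toRP (RR.s : RR T α β γ) + toRP RR.w ∈ P := by
          have h7 := Ideal.sub_mem _ hu hX
          rwa [add_sub_cancel_left, hγ2] at h7
        have h0 : toRP (RR.s : RR T α β γ) * toRP RR.w ∈ P := by
          rw [hxs]
          exact Ideal.zero_mem _
        rcases hP.mem_or_mem h0 with hs | hw
        · refine ⟨hs, ?_, hX⟩
          have h8 := Ideal.sub_mem _ hγP hs
          rwa [add_sub_cancel_left] at h8
        · refine ⟨?_, hw, hX⟩
          have h8 := Ideal.sub_mem _ hγP hw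
          rwa [add_sub_cancel_right] at h8
    obtain ⟨hs, hw, hX⟩ := hsw
    have hx : toRP (RR.x : RR T α β γ) ∈ P := by
      have h4 : toRP (RR.x : RR T α β γ) ^ 2 + toRP RR.s ^ 2 * toRP RR.z ∈ P := hg 3
      have h5 : toRP (RR.x : RR T α β γ) ^ 2 ∈ P := by
        have h6 : toRP (RR.x : RR T α β γ) ^ 2 =
          (toRP (RR.x : RR T α β γ) ^ 2 + toRP RR.s ^ 2 * toRP RR.z) -
            (toRP RR.s * toRP RR.z) * toRP RR.s := by ring
        rw [h6]
        exact Ideal.sub_mem _ h4 (Ideal.mul_mem_left _ _ hs)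
      exact hP.mem_of_pow_mem 2 h5
    have hy : toRP (RR.y : RR T α β γ) ∈ P := hP.mem_of_pow_mem 3 (hg 0)
    have hz : toRP (RR.z : RR T α β γ) ∈ P := hP.mem_of_pow_mem 2 (hg 1)
    have hmT : maximalIdeal T ≤ P.comap ((toRP (T := T) (α := α) (β := β) (γ := γ)).comp
        RR.emb) := by
      rw [hB.max, Ideal.span_le]
      intro t ht
      simp only [Set.mem_insert_iff, Set.mem_singleton_iff] at ht
      rw [SetLike.mem_coe, Ideal.mem_comap, RingHom.comp_apply]
      rcases ht with rfl | rfl | rfl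
      · rw [← RR.x_sub_y, map_sub]
        exact Ideal.sub_mem _ hx hy
      · rw [← RR.z_eq]
        exact hz
      · rw [hγ2]
        exact Ideal.add_mem _ hs hw
    intro f hf
    obtain ⟨F, rfl⟩ := qm_surj f
    obtain ⟨G, hG⟩ := Pool.Agent.H291R3.PSB.decomp1 F
    have h1 : RegP.qm F = toRP (PowerSeries.constantCoeff F) + RegP.qm PowerSeries.X * RegP.qm G := by
      conv_lhs => rw [hG]
      rw [map_add, map_mul]
      rfl
    have h2 : RegP.qm F - toRP (RR.emb (PowerSeries.constantCoeff F).a) ∈ P := by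
      rw [h1]
      conv =>
        enter [2, 1, 1]
        rw [RR.decomp (PowerSeries.constantCoeff F)]
      simp only [map_add, map_mul]
      have h3 : ∀ a b c d e g : RP T α β γ, a + b * c + d * e + g - a = b * c + d * e + g := by
        intro a b c d e g
        ring
      rw [h3]
      exact Ideal.add_mem _ (Ideal.add_mem _ (Ideal.mul_mem_left _ _ hx)
        (Ideal.mul_mem_left _ _ hw)) (Ideal.mul_mem_right _ _ hX)
    by_cases ha : (PowerSeries.constantCoeff F).a ∈ maximalIdeal T
    · have h3 := Ideal.add_mem _ h2 (hmT ha)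
      rwa [RingHom.comp_apply, sub_add_cancel] at h3
    · exfalso
      have h3 : IsUnit (PowerSeries.constantCoeff F).a := by
        by_contra hcon
        exact ha ((mem_maximalIdeal _).2 hcon)
      have h4 := (h3.map (RR.emb : T →+* RR T α β γ)).map
        (toRP (T := T) (α := α) (β := β) (γ := γ))
      have h5 := Ideal.sub_mem _ hf (le_maximalIdeal hP.ne_top h2)
      rw [sub_sub_cancel] at h5
      exact (mem_nonunits_iff.1 ((mem_maximalIdeal _).1 h5)) h4
  refine dim_le_one _ (cP_ne_top hα hβ hγ) _ key ?_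
  rw [mem_maximalIdeal, mem_nonunits_iff]
  intro hcon
  have h1 := hcon.map (psi (T := T) (α := α) (β := β) (γ := γ))
  rw [map_add, psi_qm, psi_toRP, PowerSeries.constantCoeff_X, RR.zero_a, zero_add, RR.emb_a] at h1
  exact (mem_nonunits_iff.1 ((mem_maximalIdeal _).1 hγ)) h1

end A

end Q37.Grade
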